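import Pool.Agent.Q5.SG.Stm2
import Pool.Agent.Q225.AR.Fin
import Pool.Agent.Q128.AR.Sec3

/-! JOB SG-CH: the characters of the ray class group separate its elements -/

set_option autoImplicit false

namespace Pool.Agent.Q251.SG

open NumberField IsDedekindDomain
open Pool.Agent.Q92.AR (Dv prin prin_one prin_mul prin_inv Pr Ray RayD Cong Pos val_eq_one)

/-- the ray as a subgroup of the units -/
def RG (K : Type) [Field K] [NumberField K] (N : ℕ) : Subgroup Kˣ where
  carrier := Ray K N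
  mul_mem' {a b} ha hb := by
    refine ⟨?_, ?_⟩
    · intro v hN
      have h1 : ((a * b : Kˣ) : K) - 1 = (a : K) * ((b : K) - 1) + ((a : K) - 1) := by
        rw [Units.val_mul]; ring
      rw [h1]
      refine (Valuation.map_add _ _ _).trans (max_le ?_ (ha.1 v hN))
      rw [map_mul, val_eq_one hN (ha.1 v hN), one_mul]
      exact hb.1 v hN
    · intro φ
      rw [Units.val_mul, map_mul]
      exact mul_pos (ha.2 φ) (hb.2 φ)
  one_mem' := by
    refine ⟨?_, ?_⟩
    · intro v _
      rw [Units.val_one, sub_self, map_zero]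
      exact zero_le
    · intro φ
      rw [Units.val_one, map_one]
      exact one_pos
  inv_mem' {a} ha := by
    refine ⟨?_, ?_⟩
    · intro v hN
      have h1 : ((a⁻¹ : Kˣ) : K) - 1 = - ((a : K)⁻¹ * ((a : K) - 1)) := by
        rw [Units.val_inv_eq_inv_val, mul_sub, inv_mul_cancel₀ a.ne_zero, mul_one]; ring
      rw [h1, Valuation.map_neg, map_mul, map_inv₀, val_eq_one hN (ha.1 v hN), inv_one, one_mul]
      exact ha.1 v hN
    · intro φ
      rw [Units.val_inv_eq_inv_val, map_inv₀]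
      exact inv_pos.2 (ha.2 φ)

theorem mem_RG {K : Type} [Field K] [NumberField K] {N : ℕ} {x : Kˣ} :
    x ∈ RG K N ↔ x ∈ Ray K N := Iff.rfl

theorem mem_RayD {K : Type} [Field K] [NumberField K] {N : ℕ} {D : Dv K} (hD : D ∈ RayD K N) :
    ∃ x ∈ Ray K N, prin x = D := by
  unfold RayD at hD
  induction hD using AddSubgroup.closure_induction with
  | mem x hx => exact hx
  | zero => exact ⟨1, mem_RG.1 (RG K N).one_mem, prin_one⟩
  | add a b _ _ ha hb =>
    obtain ⟨x, hx, rfl⟩ := ha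
    obtain ⟨y, hy, rfl⟩ := hb
    exact ⟨x * y, mem_RG.1 ((RG K N).mul_mem hx hy), prin_mul x y⟩
  | neg a _ ha =>
    obtain ⟨x, hx, rfl⟩ := ha
    exact ⟨x⁻¹, mem_RG.1 ((RG K N).inv_mem hx), prin_inv x⟩

/-- JOB SG-CH -/
theorem ch : Pool.Agent.Q5.SG.S_CH := by
  intro K _ _ N hN D hD hχ
  apply mem_RayD
  by_contra hnot
  -- the finite quotient
  let H' : AddSubgroup (Pr K N) := (RayD K N).addSubgroupOf (Pr K N)
  have hfin : H'.index ≠ 0 := Pool.Agent.Q225.AR.fin K N hN
  have hF : Finite (Pr K N ⧸ H') := by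
    have : H'.FiniteIndex := ⟨hfin⟩
    infer_instance
  let q : Dv K →+ (Pr K N ⧸ H') :=
    (QuotientAddGroup.mk' H').comp (Pool.Agent.Q128.AR.prj K N)
  have hq : q D ≠ 0 := by
    change (QuotientAddGroup.mk' H') (Pool.Agent.Q128.AR.prj K N D) ≠ 0
    rw [Pool.Agent.Q128.AR.prj_of_mem hD]
    intro h
    rw [QuotientAddGroup.mk'_apply, QuotientAddGroup.eq_zero_iff] at h
    exact hnot h
  have hne : (Multiplicative.ofAdd (q D) : Multiplicative (Pr K N ⧸ H')) ≠ 1 := by
    intro h
    exact hq (Multiplicative.ofAdd.injective h)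
  have : Finite (Multiplicative (Pr K N ⧸ H')) := hF
  obtain ⟨ψ, hψ⟩ := CommGroup.exists_apply_ne_one_of_hasEnoughRootsOfUnity
    (Multiplicative (Pr K N ⧸ H')) ℂ hne
  let χ : Dv K →+ Additive ℂˣ := (MonoidHom.toAdditiveRight ψ).comp q
  have hχD := hχ χ (by
    intro x hx
    have h1 : q (prin x) = 0 := by
      change (QuotientAddGroup.mk' H') (Pool.Agent.Q128.AR.prj K N (prin x)) = 0
      rw [Pool.Agent.Q128.AR.prj_of_mem (Pool.Agent.Q128.AR.ray_mem_Pr hx),
        QuotientAddGroup.mk'_apply, QuotientAddGroup.eq_zero_iff]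
      exact AddSubgroup.subset_closure ⟨x, hx, rfl⟩
    change (MonoidHom.toAdditiveRight ψ) (q (prin x)) = 0
    rw [h1, map_zero])
  exact hψ hχD

end Pool.Agent.Q251.SG
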