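import Pool.Agent.Q5.SG.Stm

/-!
# Project SG, job QF: the `𝔮`-units modulo `N`-th powers
-/

set_option autoImplicit false

namespace Pool.Agent.Q251.SG

open NumberField IsDedekindDomain Pool.Agent.Y18.LC Pool.Agent.Q5.SG

variable {K : Type} [Field K] [NumberField K]

theorem unit_reps (K : Type) [Field K] [NumberField K] (N : ℕ) (hN : 1 ≤ N) :
    ∃ R : Finset Kˣ, (∀ r ∈ R, r ∈ EU K) ∧ ∀ e ∈ EU K, ∃ r ∈ R, ∃ w ∈ EU K, e = r * w ^ N := by
  classical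
  let S : Subgroup (𝓞 K)ˣ := (powMonoidHom N).range
  have : Group.FG (𝓞 K)ˣ := Group.fg_iff_monoid_fg.2 inferInstance
  have hQ : Finite ((𝓞 K)ˣ ⧸ S) := by
    apply CommGroup.finite_of_fg_isMulTorsion
    intro q
    obtain ⟨e, rfl⟩ := QuotientGroup.mk_surjective q
    rw [isOfFinOrder_iff_pow_eq_one]
    refine ⟨N, hN, ?_⟩
    rw [← QuotientGroup.mk_pow, QuotientGroup.eq_one_iff]
    exact ⟨e, rfl⟩
  have := Fintype.ofFinite ((𝓞 K)ˣ ⧸ S)
  let ι : (𝓞 K)ˣ →* Kˣ := Units.map (algebraMap (𝓞 K) K).toMonoidHom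
  have hι : ∀ e, ι e ∈ EU K := fun e => ⟨e, rfl⟩
  refine ⟨Finset.univ.image (fun q : (𝓞 K)ˣ ⧸ S => ι q.out), ?_, ?_⟩
  · intro r hr
    obtain ⟨q, -, rfl⟩ := Finset.mem_image.1 hr
    exact hι _
  · rintro _ ⟨e, rfl⟩
    refine ⟨ι (e : (𝓞 K)ˣ ⧸ S).out, Finset.mem_image_of_mem _ (Finset.mem_univ _), ?_⟩
    have h1 : ((e : (𝓞 K)ˣ ⧸ S).out : (𝓞 K)ˣ ⧸ S) = (e : (𝓞 K)ˣ ⧸ S) := QuotientGroup.out_eq' _
    rw [QuotientGroup.eq] at h1
    obtain ⟨w, hw⟩ := h1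
    have hw' : w ^ N = ((e : (𝓞 K)ˣ ⧸ S).out)⁻¹ * e := hw
    refine ⟨ι w, hι w, ?_⟩
    show ι e = _
    rw [← map_pow, hw', map_mul, map_inv, mul_inv_cancel_left]

theorem EU_of_val {x : Kˣ} (h : ∀ v : HeightOneSpectrum (𝓞 K), v.valuation K (x : K) = 1) :
    x ∈ EU K := by
  rw [mem_EU_iff]
  have h1 : ∀ y : K, (∀ v : HeightOneSpectrum (𝓞 K), v.valuation K y ≤ 1) → IsIntegral ℤ y := by
    intro y hy
    obtain ⟨z, rfl⟩ := HeightOneSpectrum.mem_integers_of_valuation_le_one K y hy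
    exact z.2
  refine ⟨h1 _ fun v => (h v).le, h1 _ fun v => ?_⟩
  rw [Units.val_inv_eq_inv_val, map_inv₀, h v, inv_one]

theorem QU_of_EU {x : Kˣ} (h : x ∈ EU K) (𝔮 : HeightOneSpectrum (𝓞 K)) : x ∈ QU 𝔮 := by
  rw [mem_QU]
  intro v _
  exact val_EU v h

theorem qf : S_QF := by
  classical
  intro K _ _ N hN
  obtain ⟨R, hR, hR'⟩ := unit_reps K N hN
  refine ⟨R.card * N, fun 𝔮 => ?_⟩
  let f : Kˣ →* Multiplicative ℤ := 𝔮.valuationOfNeZero
  have hf : ∀ x : Kˣ, f x = 1 → 𝔮.valuation K (x : K) = 1 := by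
    intro x hx
    rw [← HeightOneSpectrum.valuationOfNeZero_eq]
    show ((f x : Multiplicative ℤ) : WithZero (Multiplicative ℤ)) = 1
    rw [hx]
    rfl
  obtain ⟨g, hg⟩ := IsCyclic.exists_generator (α := (QU 𝔮).map f)
  obtain ⟨ϖ, hϖ, hϖg⟩ := g.2
  refine ⟨(R ×ˢ Finset.range N).image (fun t => t.1 * ϖ ^ t.2), ?_, ?_⟩
  · refine Finset.card_image_le.trans ?_
    rw [Finset.card_product, Finset.card_range]
  · intro η hη
    obtain ⟨i, hi⟩ := hg ⟨f η, ⟨η, hη, rfl⟩⟩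
    have hi' : (g : Multiplicative ℤ) ^ i = f η := by
      have := congrArg Subtype.val hi
      simpa using this
    have hu : η * (ϖ ^ i)⁻¹ ∈ EU K := by
      apply EU_of_val
      intro v
      by_cases hv : v = 𝔮
      · subst hv
        apply hf
        rw [map_mul, map_inv, map_zpow, hϖg, hi', mul_inv_cancel]
      · exact (mul_mem hη (inv_mem (zpow_mem hϖ i)) : _ ∈ QU 𝔮) v hv
    obtain ⟨τ, hτ, w, hw, hτw⟩ := hR' _ hu
    have hN0 : (0 : ℤ) < N := by exact_mod_cast hN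
    have h1 : 0 ≤ i % N := Int.emod_nonneg _ hN0.ne'
    have h2 : i % N < N := Int.emod_lt_of_pos _ hN0
    have h3 : i = N * (i / N) + i % N := (Int.mul_ediv_add_emod i N).symm
    obtain ⟨r, hr⟩ := Int.eq_ofNat_of_zero_le h1
    refine ⟨τ * ϖ ^ r, Finset.mem_image.2 ⟨(τ, r), Finset.mem_product.2 ⟨hτ, Finset.mem_range.2 ?_⟩, rfl⟩,
      w * ϖ ^ (i / N), mul_mem (QU_of_EU hw 𝔮) (zpow_mem hϖ _), ?_⟩
    · show r < N
      rw [hr] at h2
      exact_mod_cast h2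
    · have h4 : η = τ * w ^ N * ϖ ^ i := by
        rw [← hτw, inv_mul_cancel_right]
      have h5 : ϖ ^ i = ϖ ^ r * (ϖ ^ (i / N)) ^ N := by
        conv_lhs => rw [h3]
        rw [zpow_add, zpow_mul', hr, zpow_natCast, zpow_natCast, mul_comm]
      rw [h4, h5, mul_pow]
      simp only [mul_assoc, mul_comm, mul_left_comm]

end Pool.Agent.Q251.SG
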