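import Pool.Agent.Q5.SG.Stm2
import Pool.Agent.Q251.SG.QF

/-!
# Project SG, job CP: `CondQ` for principal primes
-/

set_option autoImplicit false

namespace Pool.Agent.Q251.SG

open NumberField IsDedekindDomain Pool.Agent.Y18.LC Pool.Agent.Q5.SG

variable {K : Type} [Field K]

theorem inv_pow_lt {p : ℕ} (hp : p.Prime) {n : ℕ} (hn : 1 ≤ n) : ((p : ℝ)⁻¹) ^ n < 1 := by
  have h1 : (1 : ℝ) < p := by exact_mod_cast hp.one_lt
  exact pow_lt_one₀ (by positivity) (inv_lt_one_of_one_lt₀ h1) (by omega)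

section
variable {p : ℕ} [Fact p.Prime] {E : Type} [Field E] [Algebra K E]

theorem Cl_norm {S : Set (K →+* ℂ_[p])} {n : ℕ} (hn : 1 ≤ n) {x : E} (hx : Cl S n x)
    (σ : E →+* ℂ_[p]) (hσ : σ.comp (algebraMap K E) ∈ S) : ‖σ x‖ = 1 :=
  norm_of_sub_one ((hx σ hσ).trans_lt (inv_pow_lt Fact.out hn))

theorem Cl_mul {S : Set (K →+* ℂ_[p])} {n : ℕ} (hn : 1 ≤ n) {x y : E} (hx : Cl S n x)
    (hy : Cl S n y) : Cl S n (x * y) :=
  hx.mul hy fun σ hσ => (Cl_norm hn hx σ hσ).le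

theorem Cl_inv {S : Set (K →+* ℂ_[p])} {n : ℕ} (hn : 1 ≤ n) {x : E} (hx : Cl S n x) :
    Cl S n x⁻¹ := by
  intro σ hσ
  have h1 := Cl_norm hn hx σ hσ
  have h0 : σ x ≠ 0 := by
    intro h
    rw [h, norm_zero] at h1
    exact zero_ne_one h1
  have h2 : σ x⁻¹ - 1 = - ((σ x)⁻¹ * (σ x - 1)) := by
    rw [map_inv₀]
    field_simp
    ring
  rw [h2, norm_neg, norm_mul, norm_inv, h1, inv_one, one_mul]
  exact hx σ hσ

theorem Cl_zpow {S : Set (K →+* ℂ_[p])} {n : ℕ} (hn : 1 ≤ n) {x : E} (hx : Cl S n x) (j : ℤ) :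
    Cl S n (x ^ j) := by
  have h1 : ∀ (y : E), Cl S n y → ∀ k : ℕ, Cl S n (y ^ k) := by
    intro y hy k
    induction k with
    | zero => rw [pow_zero]; exact Cl.one
    | succ k ih => rw [pow_succ]; exact Cl_mul hn ih hy
  cases j with
  | ofNat k => rw [Int.ofNat_eq_natCast, zpow_natCast]; exact h1 x hx k
  | negSucc k => rw [zpow_negSucc]; exact Cl_inv hn (h1 x hx _)

end

theorem cp : J_CP := by
  intro hPW p _ hp2 K _ _ S n₁ n₀ hn hn₀ hroot β hβ hβ' 𝔮 π hπ hπQ hclose a haQ ha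
  have hval0 : 𝔮.valuation K (a : K) ≠ 0 := (Valuation.ne_zero_iff _).2 a.ne_zero
  obtain ⟨j, hj⟩ : ∃ j : ℤ, 𝔮.valuation K (a : K) = WithZero.exp (-j) :=
    ⟨-WithZero.log (𝔮.valuation K (a : K)), by rw [neg_neg, WithZero.exp_log hval0]⟩
  have hπj : 𝔮.valuation K ((π ^ j : Kˣ) : K) = WithZero.exp (-j) := by
    rw [Units.val_zpow_eq_zpow_val, map_zpow₀, hπ, ← WithZero.exp_zsmul]
    congr 1
    simp
  set ε : Kˣ := a * (π ^ j)⁻¹ with hε
  have hεU : ε ∈ EU K := by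
    apply EU_of_val
    intro v
    by_cases hv : v = 𝔮
    · subst hv
      rw [hε, Units.val_mul, Units.val_inv_eq_inv_val, map_mul, map_inv₀, hπj, hj]
      exact mul_inv_cancel₀ WithZero.exp_ne_zero
    · exact (mul_mem haQ (inv_mem (zpow_mem hπQ j)) : _ ∈ QU 𝔮) v hv
  have hn1 : 1 ≤ n₀ + 1 := by omega
  have e1 : (ε : K) * (β : K) ^ j = (a : K) * (((π : K) / β)⁻¹) ^ j := by
    rw [hε, Units.val_mul, Units.val_inv_eq_inv_val, Units.val_zpow_eq_zpow_val, inv_div, div_zpow,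
      div_eq_mul_inv]
    ring
  have h1 : Cl S (n₀ + 1) ((ε : K) * (β : K) ^ j) := by
    rw [e1]
    exact Cl_mul hn1 ha (Cl_zpow hn1 (Cl_inv hn1 hclose) j)
  obtain ⟨i, hi⟩ := hβ' ε hεU j h1
  have hπ1 : Cl S 1 (π : K) := by
    have e2 : (π : K) = ((π : K) / β) * β := by
      field_simp
    rw [e2]
    exact Cl_mul le_rfl (hclose.mono (by omega)) hβ
  have hπp : Cl S (n₀ + 1) ((π : K) ^ p ^ n₀) := by
    intro σ hσ
    have h2 := hπ1 σ hσ
    rw [pow_one] at h2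
    rw [map_pow, hPW p hp2 _ h2 n₀, pow_succ]
    exact mul_le_mul_of_nonneg_left h2 (by positivity)
  have hπj' : Cl S (n₀ + 1) (((π ^ j : Kˣ) : K)) := by
    have e3 : ((π ^ j : Kˣ) : K) = ((π : K) ^ p ^ n₀) ^ i := by
      rw [Units.val_zpow_eq_zpow_val, hi, zpow_mul]
      congr 1
      rw [← zpow_natCast]
      push_cast
      rfl
    rw [e3]
    exact Cl_zpow hn1 hπp i
  have hεc : Cl S (n₀ + 1) (ε : K) := by
    rw [hε, Units.val_mul, Units.val_inv_eq_inv_val]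
    exact Cl_mul hn1 ha (Cl_inv hn1 hπj')
  obtain ⟨w, -, hw⟩ := hroot ε (mem_CU.2 ⟨hεU, hεc.mono (by omega)⟩)
  obtain ⟨j', hj'⟩ : (p : ℤ) ∣ j := by
    rw [hi]
    exact Dvd.dvd.mul_right (dvd_pow_self _ (by omega)) _
  refine ⟨w * π ^ j', ?_⟩
  rw [mul_pow, hw, ← zpow_natCast (π ^ j') p, ← zpow_mul, mul_comm j' (p : ℤ), ← hj', hε,
    inv_mul_cancel_right]

end Pool.Agent.Q251.SG
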